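import Pool.Agent.R157.Sph.Final

/-!
# MP_731b42_co: a shortest-path triangulation is sinkable iff it is floatable

The definitions (`IsSPT`, `PoleGeneric`, `longitude`, `IsLongitudinalMorph`, `Sinkable`,
`Floatable`) are in `Pool/Agent/R157/Sph/Defs.lean`.

Idea of the proof: project the sphere centrally to the cylinder around the axis, so that vertex `i`
has a fixed direction `u i` and a height `z i`, and great circles are graphs of linear functions of
the direction. The heights reachable by longitudinal morphs form the convex cone `C` of all heights
with the same vertex/edge above/below relations. A counting argument (a sweep proof of `m ≤ 3n - 6`)
shows that in a triangulation the first edge above a vertex `v` joins its top west and its top east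
neighbours. Summing the differences of slopes of the edges at the vertices gives a quadratic
identity between the vertical gaps `a_v` (from `v` to the first edge above it) and `b_v` (from `v` to
the first edge below it). If all heights can be made negative, then the matrix of the `a_v` is an
M-matrix; with the identity one finds heights `h` in the closure of `C` with all `b_v = 0` and with
height `1` at the three lowest vertices. These are positive everywhere, and adding a large multiple
of them to the given heights floats the triangulation.
-/

set_option autoImplicit false

namespace Pool.Agent.Results.MP_731b42_co.SinkableIffFloatable

open Pool.Agent.R157.Sph

/-- A shortest-path triangulation of the sphere, no two of whose vertices lie on a great circle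
through the poles, is sinkable if and only if it is floatable. -/
theorem result (n : ℕ) (G : SimpleGraph (Fin n)) (v : Fin n → Fin 3 → ℝ) (hS : IsSPT G v)
    (hv : PoleGeneric v) : Sinkable G v ↔ Floatable G v :=
  sinkable_iff_floatable hS hv

end Pool.Agent.Results.MP_731b42_co.SinkableIffFloatable
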